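import Pool.Agent.W93.LM8
import Pool.Agent.TH893.CL.Twist

set_option autoImplicit false

/-! Products of `h` consecutive values of the Liouville function along a progression: the length `h` is good if five
systems of two point correlations at the shift `h` are small. -/

namespace Pool.Agent.Q21.CL

open Finset
open Pool.Agent.H373R2.T7 (exI liR)

/-- The Liouville function. -/
noncomputable def lam (n : ℕ) : ℝ := (-1 : ℝ) ^ ArithmeticFunction.cardFactors n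

/-- The product `λ(a n + β) λ(a (n + 1) + β) ... λ(a (n + h - 1) + β)` of the values of the Liouville function at
`h` consecutive terms of a progression. For `a = 1` and `β = 0` it is `λ(n) λ(n + 1) ... λ(n + h - 1)`. -/
noncomputable def prodL (a β h n : ℕ) : ℝ := ∏ j ∈ range h, lam (a * (n + j) + β)

/-- The length `h` is good for the weights `ξ l`, with the error term `R`: on every interval `(Y, X]` with `X ≤ M`,
the sums of the products of `h` consecutive values with the weights `ξ l` are at most half of the length of the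
interval, up to `R` (for `ξ l = 1`, `a = 1`, `β = 0` and `Y = 0` the sum is `S_h(X)`), and the sums of the values
`λ(a (n + h) + β)` with the weights `ξ l` are at most `R`. -/
def Good (a β M : ℕ) (R : ℝ) {L : ℕ} (ξ : Fin L → ℕ → ℂ) (h : ℕ) : Prop :=
  ∀ l, ∀ Y X : ℕ, Y ≤ X → X ≤ M →
    ‖∑ n ∈ Ioc Y X, ξ l n * (prodL a β h n : ℂ)‖ ≤ ((X : ℝ) - Y) / 2 + R ∧
    ‖∑ n ∈ Ioc Y X, ξ l n * (lam (a * (n + h) + β) : ℂ)‖ ≤ R

/-- the Liouville function along a progression -/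
noncomputable def lr (a b n : ℕ) : ℝ := lam (a * n + b)

lemma lr_pm (a b n : ℕ) : lr a b n = 1 ∨ lr a b n = -1 := neg_one_pow_eq_or ℝ _

lemma sum_Ioc_sub {E : Type*} [AddCommGroup E] (f : ℕ → E) {Y X : ℕ} (h : Y ≤ X) :
    ∑ n ∈ Ioc Y X, f n = ∑ n ∈ Icc 1 X, f n - ∑ n ∈ Icc 1 Y, f n := by
  have h1 : ∀ Z : ℕ, Icc 1 Z = Ioc 0 Z := by intro Z; ext n; simp only [mem_Icc, mem_Ioc]; omega
  rw [h1, h1, ← sum_Ioc_consecutive f (Nat.zero_le Y) h]
  abel

/-- the four weights of the pairing -/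
noncomputable def four (a b : ℕ) (ξ : ℕ → ℂ) (i : Fin 4) (n : ℕ) : ℝ :=
  (if i.1 < 2 then (ξ n).re else (ξ n).im) * (if i.1 % 2 = 0 then (ξ (n + 1)).re else (ξ (n + 1)).im) * lr a b n

lemma four_abs (a b : ℕ) (ξ : ℕ → ℂ) (hξ : ∀ n, ‖ξ n‖ ≤ 1) (i : Fin 4) (n : ℕ) : |four a b ξ i n| ≤ 1 := by
  have hre : ∀ n, |(ξ n).re| ≤ 1 := fun n => (Complex.abs_re_le_norm _).trans (hξ n)
  have him : ∀ n, |(ξ n).im| ≤ 1 := fun n => (Complex.abs_im_le_norm _).trans (hξ n)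
  have hl := Pool.Agent.TH893.CL.l_abs (lr_pm a b) n
  unfold four
  rw [abs_mul, abs_mul, hl, mul_one]
  apply mul_le_one₀ _ (abs_nonneg _)
  · split_ifs
    · exact hre _
    · exact him _
  · split_ifs
    · exact hre _
    · exact him _

lemma half_of (a b k : ℕ) (ξ : ℕ → ℂ) (hξ : ∀ n, ‖ξ n‖ ≤ 1) {Y X : ℕ} (hYX : Y ≤ X) {M : ℝ}
    (h : ∀ i : Fin 4, |∑ n ∈ Ioc Y X, four a b ξ i n * lr a b (n + k)| ≤ M) :
    ‖∑ n ∈ Ioc Y X, ξ n * (prodL a b k n : ℂ)‖ ≤ ((X : ℝ) - Y) / 2 + 2 * M + 1 := by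
  refine Pool.Agent.TH893.CL.twist_le (l := lr a b) (lr_pm a b) k hξ hYX ?_ ?_ ?_ ?_
  · simpa [four] using h 0
  · simpa [four] using h 1
  · simpa [four] using h 2
  · simpa [four] using h 3

/-- the systems of weights -/
noncomputable def sys (a β : ℕ) {L : ℕ} (ξ : Fin L → ℕ → ℂ) (q n : ℕ) : ℂ :=
  if h : q < 5 * L then
    (if h' : q % 5 < 4 then ((four a β (ξ ⟨q / 5, by omega⟩) ⟨q % 5, h'⟩ n : ℝ) : ℂ) else ξ ⟨q / 5, by omega⟩ n)
  else 0

lemma sys_norm (a β : ℕ) {L : ℕ} (ξ : Fin L → ℕ → ℂ) (hξ : ∀ l n, ‖ξ l n‖ ≤ 1) (q n : ℕ) : ‖sys a β ξ q n‖ ≤ 1 := by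
  unfold sys
  split_ifs with h h'
  · rw [Complex.norm_real, Real.norm_eq_abs]
    exact four_abs a β _ (hξ _) _ n
  · exact hξ _ n
  · rw [norm_zero]; norm_num

/-- good lengths from correlations -/
theorem good_of (a β M : ℕ) (ha : 1 ≤ a) {L : ℕ} (ξ : Fin L → ℕ → ℂ) (hξ : ∀ l n, ‖ξ l n‖ ≤ 1) (h : ℕ) (hh : 0 < h)
    (R R' : ℝ) (hR' : 0 ≤ R') (hR : 4 * R' + 1 ≤ R)
    (H : ∀ q < 5 * L, ∀ Z : ℕ, Z ≤ M → ‖∑ n ∈ Icc 1 Z, sys a β ξ q n *
      exI liR (((a * n : ℕ) : ℤ) + ((β : ℤ) + a * h))‖ ≤ R') : Good a β M R ξ h := by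
  have hval : ∀ n : ℕ, 1 ≤ n → exI liR (((a * n : ℕ) : ℤ) + ((β : ℤ) + a * h)) = ((lr a β (n + h) : ℝ) : ℂ) := by
    intro n hn
    have e1 : ((a * n : ℕ) : ℤ) + ((β : ℤ) + a * h) = ((a * (n + h) + β : ℕ) : ℤ) := by
      push_cast
      ring
    rw [e1]
    unfold Pool.Agent.H373R2.T7.exI lr lam
    rw [if_pos (by
      have : 1 ≤ a * (n + h) + β := by
        have := Nat.mul_pos (show 0 < a by omega) (show 0 < n + h by omega)
        omega
      exact_mod_cast this), Int.toNat_natCast]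
    unfold Pool.Agent.H373R2.T7.liR
    push_cast
    rfl
  intro l Y X hYX hX
  have hl := l.2
  have hgi : ∀ (i : Fin 4) (n : ℕ), sys a β ξ (5 * l.1 + i.1) n = ((four a β (ξ l) i n : ℝ) : ℂ) := by
    intro i n
    have hi := i.2
    unfold sys
    have e1 : (5 * l.1 + i.1) / 5 = l.1 := by omega
    have e2 : (5 * l.1 + i.1) % 5 = i.1 := by omega
    have e3 : 5 * l.1 + i.1 < 5 * L := by omega
    simp only [e1, e2, e3, hi, dif_pos]
  have hg4 : ∀ n : ℕ, sys a β ξ (5 * l.1 + 4) n = ξ l n := by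
    intro n
    unfold sys
    have e1 : (5 * l.1 + 4) / 5 = l.1 := by omega
    have e2 : ¬ (5 * l.1 + 4) % 5 < 4 := by omega
    have e3 : 5 * l.1 + 4 < 5 * L := by omega
    simp only [e1, e2, e3, dif_pos, dif_neg, not_false_eq_true]
  constructor
  · have h6 : ∀ i : Fin 4, |∑ n ∈ Ioc Y X, four a β (ξ l) i n * lr a β (n + h)| ≤ 2 * R' := by
      intro i
      have hi := i.2
      have hkey : ∀ Z : ℕ, Z ≤ M → ‖∑ n ∈ Icc 1 Z, ((four a β (ξ l) i n * lr a β (n + h) : ℝ) : ℂ)‖ ≤ R' := by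
        intro Z hZ
        refine le_trans (le_of_eq ?_) (H (5 * l.1 + i.1) (by omega) Z hZ)
        congr 1
        apply sum_congr rfl
        intro n hn
        rw [hval n (mem_Icc.1 hn).1, hgi]
        push_cast
        rfl
      have h7 : ‖∑ n ∈ Ioc Y X, ((four a β (ξ l) i n * lr a β (n + h) : ℝ) : ℂ)‖ ≤ 2 * R' := by
        rw [sum_Ioc_sub _ hYX]
        refine (norm_sub_le _ _).trans ?_
        have := hkey X hX
        have := hkey Y (hYX.trans hX)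
        linarith
      rw [← Complex.ofReal_sum, Complex.norm_real, Real.norm_eq_abs] at h7
      exact h7
    have h8 := half_of a β h (ξ l) (hξ l) hYX h6
    linarith
  · have hkey : ∀ Z : ℕ, Z ≤ M → ‖∑ n ∈ Icc 1 Z, ξ l n * (lam (a * (n + h) + β) : ℂ)‖ ≤ R' := by
      intro Z hZ
      refine le_trans (le_of_eq ?_) (H (5 * l.1 + 4) (by omega) Z hZ)
      congr 1
      apply sum_congr rfl
      intro n hn
      rw [hval n (mem_Icc.1 hn).1, hg4]
      rfl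
    rw [sum_Ioc_sub _ hYX]
    refine (norm_sub_le _ _).trans ?_
    have h9 := hkey X hX
    have h10 := hkey Y (hYX.trans hX)
    linarith

/-- the shift `y` of the progression is bad: it belongs to a length which is not good -/
def Bad (a β M : ℕ) (R : ℝ) {L : ℕ} (ξ : Fin L → ℕ → ℂ) (y : ℤ) : Prop :=
  ∃ h : ℕ, 0 < h ∧ y = (β : ℤ) + a * h ∧ ¬ Good a β M R ξ h

lemma bad_iff (a β M : ℕ) (ha : 1 ≤ a) (R : ℝ) {L : ℕ} (ξ : Fin L → ℕ → ℂ) (v : ℤ) :
    Bad a β M R ξ ((β : ℤ) + a * v) ↔ 0 < v ∧ ¬ Good a β M R ξ v.toNat := by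
  have ha0 : (a : ℤ) ≠ 0 := by omega
  constructor
  · rintro ⟨h, h1, h2, h3⟩
    have h4 : v = h := by
      have h5 : (a : ℤ) * v = a * h := by linarith
      exact mul_left_cancel₀ ha0 h5
    rw [h4]
    refine ⟨by exact_mod_cast h1, ?_⟩
    rw [Int.toNat_natCast]
    exact h3
  · rintro ⟨h1, h2⟩
    exact ⟨v.toNat, by omega, by rw [Int.toNat_of_nonneg h1.le], h2⟩

/-- a bad shift has a large correlation -/
lemma bad_large (a β M : ℕ) (ha : 1 ≤ a) {L : ℕ} (ξ : Fin L → ℕ → ℂ) (hξ : ∀ l n, ‖ξ l n‖ ≤ 1)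
    (R R' : ℝ) (hR' : 0 ≤ R') (hR : 4 * R' + 1 ≤ R) (y : ℤ) (hy : Bad a β M R ξ y) :
    ∃ q < 5 * L, ∃ Z : ℕ, Z ≤ M ∧ R' < ‖∑ n ∈ Icc 1 Z, sys a β ξ q n * exI liR (((a * n : ℕ) : ℤ) + y)‖ := by
  obtain ⟨h, h1, rfl, h3⟩ := hy
  by_contra hcon
  push Not at hcon
  exact h3 (good_of a β M ha ξ hξ h h1 R R' hR' hR hcon)

end Pool.Agent.Q21.CL
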